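import Pool.Agent.R304.SG.Jump

/-! Hardy's function is real; its local behaviour at the zeros. -/

open Complex Filter Topology Set

namespace Pool.Agent.R304.SG

/-- the phase `exp (i ϑ(t))`, with `ϑ(t) = arg Γ(1/4 + i t / 2) - (t / 2) log π` -/
noncomputable def phase (t : ℝ) : ℂ :=
  Gamma (1 / 4 + I * t / 2) / ‖Gamma (1 / 4 + I * t / 2)‖ * cexp (-(I * (t / 2) * Real.log Real.pi))

/-- Hardy's function `Z(t) = exp (i ϑ(t)) ζ(1/2 + i t)` -/
noncomputable def Z (t : ℝ) : ℂ := phase t * riemannZeta (1 / 2 + I * t)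

lemma gamma_ne (t : ℝ) : Gamma (1 / 4 + I * t / 2) ≠ 0 := by
  apply Gamma_ne_zero_of_re_pos
  simp

lemma gamma_cont : Continuous fun t : ℝ => Gamma (1 / 4 + I * t / 2) := by
  rw [continuous_iff_continuousAt]
  intro t
  have h1 : ContinuousAt Gamma (1 / 4 + I * t / 2) := by
    refine (differentiableAt_Gamma _ fun m hm => ?_).continuousAt
    have := congrArg Complex.re hm
    simp at this
    have hm0 : (0 : ℝ) ≤ m := Nat.cast_nonneg m
    linarith
  exact ContinuousAt.comp (f := fun t : ℝ => (1 / 4 + I * t / 2 : ℂ)) h1 (by fun_prop)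

lemma phase_cont : Continuous phase := by
  unfold phase
  refine Continuous.mul (gamma_cont.div ?_ ?_) (by fun_prop)
  · exact Complex.continuous_ofReal.comp gamma_cont.norm
  · intro t
    rw [Complex.ofReal_ne_zero]
    exact norm_ne_zero_iff.mpr (gamma_ne t)

lemma phase_ne (t : ℝ) : phase t ≠ 0 := by
  unfold phase
  refine mul_ne_zero (div_ne_zero (gamma_ne t) ?_) (Complex.exp_ne_zero _)
  rw [Complex.ofReal_ne_zero]
  exact norm_ne_zero_iff.mpr (gamma_ne t)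

lemma Z_zero_iff (t : ℝ) : Z t = 0 ↔ riemannZeta (1 / 2 + I * t) = 0 := by
  unfold Z
  rw [mul_eq_zero]
  exact ⟨fun h => h.resolve_left (phase_ne t), Or.inr⟩

lemma half_ne_one (t : ℝ) : (1 / 2 + I * t : ℂ) ≠ 1 := by
  intro h
  have := congrArg Complex.re h
  norm_num at this

lemma zeta_diff (t : ℝ) : DifferentiableAt ℂ riemannZeta (1 / 2 + I * t) :=
  differentiableAt_riemannZeta (half_ne_one t)

lemma Z_cont : Continuous Z := by
  unfold Z
  refine phase_cont.mul ?_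
  rw [continuous_iff_continuousAt]
  intro t
  exact ContinuousAt.comp (f := fun t : ℝ => (1 / 2 + I * t : ℂ)) (zeta_diff t).continuousAt
    (by fun_prop)

theorem GR_conj (s : ℂ) : Gammaℝ ((starRingEnd ℂ) s) = (starRingEnd ℂ) (Gammaℝ s) := by
  have c2 : (starRingEnd ℂ) 2 = 2 := Complex.conj_ofNat 2
  unfold Gammaℝ
  rw [map_mul, ← Complex.Gamma_conj]
  have h1 : (starRingEnd ℂ) s / 2 = (starRingEnd ℂ) (s / 2) := by
    rw [map_div₀, c2]
  have h2 : -(starRingEnd ℂ) s / 2 = (starRingEnd ℂ) (-s / 2) := by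
    rw [map_div₀, map_neg, c2]
  rw [h1, h2, cpow_conj _ _ (by rw [Complex.arg_ofReal_of_nonneg Real.pi_pos.le]; exact Real.pi_pos.ne)]
  simp

lemma half_conj (t : ℝ) : (starRingEnd ℂ) (1 / 2 + I * t) = 1 - (1 / 2 + I * t) := by
  apply Complex.ext
  · simp; norm_num
  · simp

lemma half_ne_zero (t : ℝ) : (1 / 2 + I * t : ℂ) ≠ 0 := by
  intro h
  have := congrArg Complex.re h
  norm_num at this

lemma lam_real (t : ℝ) : (starRingEnd ℂ) (completedRiemannZeta (1 / 2 + I * t)) =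
    completedRiemannZeta (1 / 2 + I * t) := by
  have hs : ∀ t : ℝ, Gammaℝ (1 / 2 + I * t) ≠ 0 := fun t =>
    Gammaℝ_ne_zero_of_re_pos (by simp)
  have key : ∀ t : ℝ, completedRiemannZeta (1 / 2 + I * t) =
      riemannZeta (1 / 2 + I * t) * Gammaℝ (1 / 2 + I * t) := by
    intro t
    rw [riemannZeta_def_of_ne_zero (half_ne_zero t), div_mul_cancel₀ _ (hs t)]
  have h1 : (starRingEnd ℂ) (1 / 2 + I * t) = 1 / 2 + I * ((-t : ℝ) : ℂ) := by
    apply Complex.ext
    · simp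
    · simp
  have h2 : (1 / 2 + I * ((-t : ℝ) : ℂ)) = 1 - (1 / 2 + I * t) := by
    rw [← h1, half_conj]
  calc (starRingEnd ℂ) (completedRiemannZeta (1 / 2 + I * t))
      = (starRingEnd ℂ) (riemannZeta (1 / 2 + I * t)) * (starRingEnd ℂ) (Gammaℝ (1 / 2 + I * t)) := by
        rw [key, map_mul]
    _ = riemannZeta (1 / 2 + I * ((-t : ℝ) : ℂ)) * Gammaℝ (1 / 2 + I * ((-t : ℝ) : ℂ)) := by
        rw [← riemannZeta_conj, ← GR_conj, h1]
    _ = completedRiemannZeta (1 / 2 + I * ((-t : ℝ) : ℂ)) := (key (-t)).symm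
    _ = completedRiemannZeta (1 / 2 + I * t) := by rw [h2, completedRiemannZeta_one_sub]

lemma Z_eq_lam (t : ℝ) : Z t = completedRiemannZeta (1 / 2 + I * t) *
    ((Real.exp (Real.log Real.pi / 4) / ‖Gamma (1 / 4 + I * t / 2)‖ : ℝ) : ℂ) := by
  have hG := gamma_ne t
  have hn : ((‖Gamma (1 / 4 + I * t / 2)‖ : ℝ) : ℂ) ≠ 0 := by
    rw [Complex.ofReal_ne_zero]; exact norm_ne_zero_iff.mpr hG
  have e1 : (1 / 2 + I * t : ℂ) / 2 = 1 / 4 + I * t / 2 := by ring
  have hpi : (Real.pi : ℂ) ≠ 0 := by exact_mod_cast Real.pi_ne_zero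
  have e2 : (Real.pi : ℂ) ^ (-(1 / 2 + I * t : ℂ) / 2) =
      cexp (-(Real.log Real.pi / 4)) * cexp (-(I * (t / 2) * Real.log Real.pi)) := by
    rw [Complex.cpow_def_of_ne_zero hpi, ← Complex.exp_add, ← Complex.ofReal_log Real.pi_pos.le]
    congr 1
    ring
  have hζ : riemannZeta (1 / 2 + I * t) = completedRiemannZeta (1 / 2 + I * t) /
      (cexp (-(Real.log Real.pi / 4)) * cexp (-(I * (t / 2) * Real.log Real.pi)) *
        Gamma (1 / 4 + I * t / 2)) := by
    rw [riemannZeta_def_of_ne_zero (half_ne_zero t), Gammaℝ_def, e2, e1]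
  have e3 : ((Real.exp (Real.log Real.pi / 4) / ‖Gamma (1 / 4 + I * t / 2)‖ : ℝ) : ℂ) =
      cexp (Real.log Real.pi / 4) / (‖Gamma (1 / 4 + I * t / 2)‖ : ℂ) := by
    push_cast; rfl
  unfold Z phase
  rw [hζ, e3, Complex.exp_neg (Real.log Real.pi / 4 : ℂ)]
  have x1 := Complex.exp_ne_zero (Real.log Real.pi / 4 : ℂ)
  have x2 := Complex.exp_ne_zero (-(I * (t / 2) * Real.log Real.pi))
  clear hζ e3 e2 e1
  generalize cexp (Real.log Real.pi / 4 : ℂ) = a at *
  generalize cexp (-(I * (t / 2) * Real.log Real.pi)) = b at *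
  generalize completedRiemannZeta (1 / 2 + I * t) = L at *
  generalize ((‖Gamma (1 / 4 + I * t / 2)‖ : ℝ) : ℂ) = n at *
  generalize Gamma (1 / 4 + I * t / 2) = G at *
  field_simp

/-- Hardy's function is real -/
theorem Z_im (t : ℝ) : (Z t).im = 0 := by
  have h1 : (completedRiemannZeta (1 / 2 + I * t)).im = 0 := Complex.conj_eq_iff_im.mp (lam_real t)
  rw [Z_eq_lam, Complex.im_mul_ofReal, h1, zero_mul]

lemma Z_re (t : ℝ) : ((Z t).re : ℂ) = Z t := by
  apply Complex.ext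
  · simp
  · simp [Z_im]

lemma zeta_analytic (t : ℝ) : AnalyticAt ℂ riemannZeta (1 / 2 + I * t) := by
  have : DifferentiableOn ℂ riemannZeta ({1}ᶜ : Set ℂ) := fun z hz =>
    (differentiableAt_riemannZeta hz).differentiableWithinAt
  exact this.analyticAt (isOpen_compl_singleton.mem_nhds (half_ne_one t))

/-- the local behaviour at a zero of finite order -/
theorem local_behaviour (u : ℝ) (m : ℕ) (hm : analyticOrderAt riemannZeta (1 / 2 + I * u) = m) :
    ∃ c : ℝ, c ≠ 0 ∧ Tendsto (fun t : ℝ => (Z t).re / (t - u) ^ m) (𝓝[≠] u) (𝓝 c) := by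
  obtain ⟨g, hg, hg0, hev⟩ := ((zeta_analytic u).analyticOrderAt_eq_natCast).mp hm
  have hline : Continuous fun t : ℝ => (1 / 2 + I * t : ℂ) := by fun_prop
  have h1 : Tendsto (fun t : ℝ => Z t / ((t : ℂ) - u) ^ m) (𝓝[≠] u)
      (𝓝 (phase u * (I ^ m * g (1 / 2 + I * u)))) := by
    have h2 : Tendsto (fun t : ℝ => phase t * (I ^ m * g (1 / 2 + I * t))) (𝓝[≠] u)
        (𝓝 (phase u * (I ^ m * g (1 / 2 + I * u)))) := by
      refine Tendsto.mono_left ?_ nhdsWithin_le_nhds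
      refine (phase_cont.tendsto u).mul (Tendsto.const_mul _ ?_)
      exact (hg.continuousAt.tendsto).comp (hline.tendsto u)
    refine h2.congr' ?_
    have h3 : ∀ᶠ t : ℝ in 𝓝[≠] u, riemannZeta (1 / 2 + I * t) =
        ((1 / 2 + I * t : ℂ) - (1 / 2 + I * u)) ^ m • g (1 / 2 + I * t) :=
      ((hline.tendsto u).eventually hev).filter_mono nhdsWithin_le_nhds
    filter_upwards [h3, self_mem_nhdsWithin] with t ht hne
    have hne' : ((t : ℂ) - u) ≠ 0 := by
      rw [← Complex.ofReal_sub, Complex.ofReal_ne_zero]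
      exact sub_ne_zero.mpr hne
    unfold Z
    rw [ht, smul_eq_mul]
    have e : (1 / 2 + I * t : ℂ) - (1 / 2 + I * u) = I * (t - u) := by ring
    rw [e, mul_pow]
    field_simp
  have h4 : ∀ t : ℝ, (((Z t).re / (t - u) ^ m : ℝ) : ℂ) = Z t / ((t : ℂ) - u) ^ m := by
    intro t
    push_cast
    rw [Z_re]
  have h5 : Tendsto (fun t : ℝ => (((Z t).re / (t - u) ^ m : ℝ) : ℂ)) (𝓝[≠] u)
      (𝓝 (phase u * (I ^ m * g (1 / 2 + I * u)))) := by
    simp_rw [h4]; exact h1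
  obtain ⟨w, hw⟩ : ∃ w, w = phase u * (I ^ m * g (1 / 2 + I * u)) := ⟨_, rfl⟩
  have hw0 : w ≠ 0 := by
    rw [hw]
    exact mul_ne_zero (phase_ne u) (mul_ne_zero (pow_ne_zero _ I_ne_zero) hg0)
  rw [← hw] at h5
  have h6 : Tendsto (fun t : ℝ => (((Z t).re / (t - u) ^ m : ℝ) : ℂ).re) (𝓝[≠] u) (𝓝 w.re) :=
    (Complex.continuous_re.tendsto w).comp h5
  have h7 : Tendsto (fun t : ℝ => (((Z t).re / (t - u) ^ m : ℝ) : ℂ).im) (𝓝[≠] u) (𝓝 w.im) :=
    (Complex.continuous_im.tendsto w).comp h5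
  have h8 : w.im = 0 := by
    simp only [Complex.ofReal_im] at h7
    exact (tendsto_nhds_unique h7 tendsto_const_nhds)
  refine ⟨w.re, fun h => hw0 (Complex.ext h h8), ?_⟩
  simpa only [Complex.ofReal_re] using h6

/-- at a zero with a derivative -/
theorem local_simple {u : ℝ} {d : ℂ} (h0 : Z u = 0) (hd : HasDerivAt Z d u) :
    d.im = 0 ∧ Tendsto (fun t : ℝ => (Z t).re / (t - u)) (𝓝[≠] u) (𝓝 d.re) := by
  rw [hasDerivAt_iff_tendsto_slope] at hd
  have h4 : ∀ t : ℝ, slope Z u t = (((Z t).re / (t - u) : ℝ) : ℂ) := by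
    intro t
    rw [slope_def_module, h0, sub_zero, Complex.real_smul]
    push_cast
    rw [Z_re]
    ring
  have h5 : Tendsto (fun t : ℝ => (((Z t).re / (t - u) : ℝ) : ℂ)) (𝓝[≠] u) (𝓝 d) := by
    refine hd.congr fun t => h4 t
  have h6 : Tendsto (fun t : ℝ => (((Z t).re / (t - u) : ℝ) : ℂ).re) (𝓝[≠] u) (𝓝 d.re) :=
    (Complex.continuous_re.tendsto d).comp h5
  have h7 : Tendsto (fun t : ℝ => (((Z t).re / (t - u) : ℝ) : ℂ).im) (𝓝[≠] u) (𝓝 d.im) :=
    (Complex.continuous_im.tendsto d).comp h5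
  constructor
  · simp only [Complex.ofReal_im] at h7
    exact (tendsto_nhds_unique h7 tendsto_const_nhds)
  · simpa only [Complex.ofReal_re] using h6

end Pool.Agent.R304.SG
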