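import Pool.Agent.R304.SG.ZR
import Pool.Agent.Results.MP_6bc78b_nt.SimplePlusExcess

/-! Zeros with positive and with negative derivative are about equally many. -/

open Complex Filter Topology Set

namespace Pool.Agent.R304.SG

open Pool.Agent.Results.MP_6bc78b_nt

lemma exists_right (F : Finset ℝ) {x z : ℝ} (hxz : x < z) :
    ∃ y, x < y ∧ y < z ∧ ∀ v ∈ F, x < v → y < v := by
  have h1 : ∀ᶠ y in 𝓝[>] x, y < z := (eventually_lt_nhds hxz).filter_mono nhdsWithin_le_nhds
  have h2 : ∀ᶠ y in 𝓝[>] x, ∀ v ∈ F, x < v → y < v := by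
    rw [Filter.eventually_all_finset]
    intro v _
    by_cases hv : x < v
    · filter_upwards [(eventually_lt_nhds hv).filter_mono nhdsWithin_le_nhds] with y hy _
      exact hy
    · exact Eventually.of_forall fun y h => absurd h hv
  have h3 : ∀ᶠ y in 𝓝[>] x, x < y := self_mem_nhdsWithin
  obtain ⟨y, h⟩ := (h1.and (h2.and h3)).exists
  exact ⟨y, h.2.2, h.1, h.2.1⟩

/-- the real zeros of `Z` in `(T₁, T₂]` -/
def RZ (T₁ T₂ : ℝ) : Set ℝ := {t : ℝ | T₁ < t ∧ t ≤ T₂ ∧ Z t = 0}

lemma RZ_finite (T₁ T₂ : ℝ) (h : 0 ≤ T₁) : (RZ T₁ T₂).Finite := by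
  have hinj : Function.Injective fun t : ℝ => (1 / 2 + I * t : ℂ) := by
    intro a b hab
    have := congrArg Complex.im hab
    simpa using this
  refine Set.Finite.of_finite_image ((SimplePlusExcess.zeros_finite T₁ T₂ h).subset ?_) hinj.injOn
  rintro s ⟨t, ⟨h1, h2, h3⟩, rfl⟩
  refine ⟨(Z_zero_iff t).mp h3, ?_, ?_, ?_, ?_⟩ <;> simp <;> first | assumption | norm_num

/-- the order of vanishing is finite and positive -/
lemma order_nat {u : ℝ} (hu : 0 < u) (h0 : Z u = 0) :
    1 ≤ analyticOrderNatAt riemannZeta (1 / 2 + I * u) ∧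
    analyticOrderAt riemannZeta (1 / 2 + I * u) =
      (analyticOrderNatAt riemannZeta (1 / 2 + I * u) : ℕ) := by
  have h1 : 1 ≤ H370.mult riemannZeta (1 / 2 + I * u) :=
    H370.Loc.mult_pos' H370.good_zeta (by simpa using hu) ((Z_zero_iff u).mp h0)
  have h2 : 1 ≤ analyticOrderNatAt riemannZeta (1 / 2 + I * u) := h1
  refine ⟨h2, ?_⟩
  unfold analyticOrderNatAt at h2 ⊢
  have h3 : analyticOrderAt riemannZeta (1 / 2 + I * u) ≠ ⊤ := by
    intro h4; rw [h4] at h2; simp at h2
  exact (ENat.natCast_toNat h3).symm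

/-- the jumps -/
lemma exists_jump {u : ℝ} (hu : 0 < u) (h0 : Z u = 0) : ∃ J : ℤ,
    IsJump (fun t => (Z t).re) u J ∧ |J| ≤ 1 ∧
    (deriv Z u ≠ 0 → J = sg (deriv Z u).re ∧ (deriv Z u).re ≠ 0) ∧
    (deriv Z u = 0 → analyticOrderNatAt riemannZeta (1 / 2 + I * u) < 3 → J = 0) := by
  obtain ⟨hm1, hm2⟩ := order_nat hu h0
  have hd := SimpleZerosOfZ.Z_hasDerivAt u ((Z_zero_iff u).mp h0)
  have hd' : HasDerivAt Z (deriv Z u) u := by
    have h : HasDerivAt Z (SimpleZerosOfZ.phase u *
      (deriv riemannZeta (1 / 2 + I * u) * I)) u := hd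
    rw [h.deriv]; exact h
  obtain ⟨g1, g2⟩ := local_simple h0 hd'
  by_cases hz : deriv Z u = 0
  · obtain ⟨c, hc, hlim⟩ := local_behaviour u _ hm2
    have hne1 : analyticOrderNatAt riemannZeta (1 / 2 + I * u) ≠ 1 := by
      intro h
      exact SimpleZerosOfZ.simple_of_order ((Z_zero_iff u).mp h0) h hz
    by_cases h3 : analyticOrderNatAt riemannZeta (1 / 2 + I * u) < 3
    · have h2 : analyticOrderNatAt riemannZeta (1 / 2 + I * u) = 2 := by omega
      rw [h2] at hlim
      exact ⟨0, jump_two hc hlim, by norm_num, fun h => absurd hz h, fun _ _ => rfl⟩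
    · obtain ⟨J, hJ1, hJ2⟩ := jump_any _ hc hlim
      exact ⟨J, hJ2, hJ1, fun h => absurd hz h, fun _ h => absurd h h3⟩
  · have hre : (deriv Z u).re ≠ 0 := fun h => hz (Complex.ext h g1)
    refine ⟨sg (deriv Z u).re, jump_one hre g2, ?_, fun _ => ⟨rfl, hre⟩, fun h => absurd h hz⟩
    unfold sg; split_ifs <;> norm_num

open Classical in
/-- **balance**: the simple zeros with positive derivative and those with negative derivative
differ by at most `1` plus the excess multiplicity -/
theorem balance {T₁ T₂ : ℝ} (h0 : 0 ≤ T₁) (h12 : T₁ < T₂) :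
    (SimplePlusExcess.simpleZeros T₁ T₂).ncard ≤
      2 * {t : ℝ | T₁ < t ∧ t ≤ T₂ ∧ Z t = 0 ∧ 0 < (deriv Z t).re}.ncard + 1 +
        SimplePlusExcess.excess T₁ T₂ ∧
    (SimplePlusExcess.simpleZeros T₁ T₂).ncard ≤
      2 * {t : ℝ | T₁ < t ∧ t ≤ T₂ ∧ Z t = 0 ∧ (deriv Z t).re < 0}.ncard + 1 +
        SimplePlusExcess.excess T₁ T₂ := by
  have hfin := RZ_finite T₁ T₂ h0
  set F := hfin.toFinset with hF
  have hmem : ∀ u, u ∈ F ↔ T₁ < u ∧ u ≤ T₂ ∧ Z u = 0 := fun u => by
    rw [hF, Set.Finite.mem_toFinset]; rfl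
  -- the jumps
  have hJ : ∀ u : ℝ, ∃ J : ℤ, u ∈ F → IsJump (fun t => (Z t).re) u J ∧ |J| ≤ 1 ∧
    (deriv Z u ≠ 0 → J = sg (deriv Z u).re ∧ (deriv Z u).re ≠ 0) ∧
    (deriv Z u = 0 → analyticOrderNatAt riemannZeta (1 / 2 + I * u) < 3 → J = 0) := by
    intro u
    by_cases hu : u ∈ F
    · have hu' := (hmem u).mp hu
      obtain ⟨J, hJ⟩ := exists_jump (by linarith [hu'.1]) hu'.2.2
      exact ⟨J, fun _ => hJ⟩
    · exact ⟨0, fun h => absurd h hu⟩
  choose J hJ using hJ
  -- the sum of the jumps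
  have hZc : Continuous fun t => (Z t).re := Complex.continuous_re.comp Z_cont
  have hz0 : ∀ u, (Z u).re = 0 → Z u = 0 := fun u h => by rw [← Z_re, h]; simp
  obtain ⟨a, ha1, ha2, ha3⟩ := exists_right F h12
  obtain ⟨b, hb1, hb2, hb3⟩ := exists_right (RZ_finite T₂ (T₂ + 1) (by linarith)).toFinset
    (show T₂ < T₂ + 1 by linarith)
  have hsum := jump_sum hZc J F.card F rfl a b (by linarith)
    (fun h => by
      have : a ∈ F := (hmem a).mpr ⟨ha1, ha2.le, hz0 a h⟩
      exact lt_irrefl _ (ha3 a this ha1))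
    (fun h => by
      have : b ∈ (RZ_finite T₂ (T₂ + 1) (by linarith)).toFinset := by
        rw [Set.Finite.mem_toFinset]
        exact ⟨hb1, hb2.le, hz0 b h⟩
      exact lt_irrefl _ (hb3 b this hb1))
    (fun u hau hub hu0 => by
      rcases le_or_gt u T₂ with h | h
      · exact (hmem u).mpr ⟨by linarith, h, hz0 u hu0⟩
      · have : u ∈ (RZ_finite T₂ (T₂ + 1) (by linarith)).toFinset := by
          rw [Set.Finite.mem_toFinset]
          exact ⟨h, by linarith, hz0 u hu0⟩
        exact absurd (hb3 u this h) (by linarith))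
    (fun u hu => ⟨ha3 u hu ((hmem u).mp hu).1, by linarith [((hmem u).mp hu).2.1]⟩)
    (fun u hu => (hJ u hu).1)
  have hsum1 : |∑ u ∈ F, J u| ≤ 1 := by
    unfold sg at hsum
    rw [abs_le]
    split_ifs at hsum <;> constructor <;> omega
  -- the simple zeros
  set A := F.filter (fun u => deriv Z u ≠ 0) with hA
  set P := F.filter (fun u => 0 < (deriv Z u).re) with hP
  set Q := F.filter (fun u => (deriv Z u).re < 0) with hQ
  set R : Finset ℝ := F.filter (fun u : ℝ => 3 ≤ analyticOrderNatAt riemannZeta (1 / 2 + I * u))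
    with hR
  have hAn : (SimplePlusExcess.simpleZeros T₁ T₂).ncard = A.card := by
    rw [← Set.ncard_coe_finset]
    congr 1
    ext t
    rw [hA, Finset.coe_filter]
    simp only [Set.mem_ofPred_eq, hmem]
    unfold SimplePlusExcess.simpleZeros
    simp only [Set.mem_ofPred_eq]
    constructor
    · rintro ⟨h1, h2, h3, h4⟩; exact ⟨⟨h1, h2, h3⟩, h4⟩
    · rintro ⟨⟨h1, h2, h3⟩, h4⟩; exact ⟨h1, h2, h3, h4⟩
  have hPn : {t : ℝ | T₁ < t ∧ t ≤ T₂ ∧ Z t = 0 ∧ 0 < (deriv Z t).re}.ncard = P.card := by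
    rw [← Set.ncard_coe_finset]
    congr 1
    ext t
    rw [hP, Finset.coe_filter]
    simp only [Set.mem_ofPred_eq, hmem]
    tauto
  have hQn : {t : ℝ | T₁ < t ∧ t ≤ T₂ ∧ Z t = 0 ∧ (deriv Z t).re < 0}.ncard = Q.card := by
    rw [← Set.ncard_coe_finset]
    congr 1
    ext t
    rw [hQ, Finset.coe_filter]
    simp only [Set.mem_ofPred_eq, hmem]
    tauto
  have hR1 : R.card ≤ SimplePlusExcess.excess T₁ T₂ := by
    have hfz := SimplePlusExcess.zeros_finite T₁ T₂ h0
    have e3 : SimplePlusExcess.excess T₁ T₂ = ∑ s ∈ hfz.toFinset,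
        (if s.re = 1 / 2 then SimplePlusExcess.mult s - 2 else SimplePlusExcess.mult s - 1) :=
      finsum_mem_eq_finite_toFinset_sum _ hfz
    have hinj : Function.Injective fun t : ℝ => (1 / 2 + I * t : ℂ) := by
      intro a b hab
      have := congrArg Complex.im hab
      simpa using this
    rw [e3, ← Finset.card_image_of_injective R hinj, Finset.card_eq_sum_ones]
    calc ∑ s ∈ R.image (fun t : ℝ => (1 / 2 + I * t : ℂ)), 1
        ≤ ∑ s ∈ R.image (fun t : ℝ => (1 / 2 + I * t : ℂ)),
          (if s.re = 1 / 2 then SimplePlusExcess.mult s - 2 else SimplePlusExcess.mult s - 1) := by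
          refine Finset.sum_le_sum fun s hs => ?_
          rw [Finset.mem_image] at hs
          obtain ⟨t, ht, rfl⟩ := hs
          rw [hR, Finset.mem_filter] at ht
          have h3 : 3 ≤ SimplePlusExcess.mult (1 / 2 + I * t) := ht.2
          have hre : (1 / 2 + I * t : ℂ).re = 1 / 2 := by simp
          rw [if_pos hre]
          omega
      _ ≤ _ := by
          refine Finset.sum_le_sum_of_subset ?_
          intro s hs
          rw [Finset.mem_image] at hs
          obtain ⟨t, ht, rfl⟩ := hs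
          rw [hR, Finset.mem_filter, hmem] at ht
          rw [Set.Finite.mem_toFinset]
          refine ⟨(Z_zero_iff t).mp ht.1.2.2, ?_, ?_, ?_, ?_⟩
          · simp
          · simp; norm_num
          · simpa using ht.1.1
          · simpa using ht.1.2.1
  -- splitting
  have hcardA : A.card = P.card + Q.card := by
    rw [← Finset.card_union_of_disjoint]
    · congr 1
      ext u
      rw [hA, hP, hQ, Finset.mem_filter, Finset.mem_union, Finset.mem_filter, Finset.mem_filter]
      constructor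
      · rintro ⟨hu, hd⟩
        have := ((hJ u hu).2.2.1 hd).2
        rcases lt_or_gt_of_ne this with h | h
        · exact Or.inr ⟨hu, h⟩
        · exact Or.inl ⟨hu, h⟩
      · rintro (⟨hu, hd⟩ | ⟨hu, hd⟩)
        · exact ⟨hu, fun h => by rw [h] at hd; simp at hd⟩
        · exact ⟨hu, fun h => by rw [h] at hd; simp at hd⟩
    · rw [Finset.disjoint_left]
      intro u hu hu'
      rw [hP, Finset.mem_filter] at hu
      rw [hQ, Finset.mem_filter] at hu'
      linarith [hu.2, hu'.2]
  have hsplit : ∑ u ∈ F, J u = (P.card : ℤ) - Q.card + ∑ u ∈ F.filter (fun u => deriv Z u = 0), J u := by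
    have h1 : ∑ u ∈ A, J u = (P.card : ℤ) - Q.card := by
      have h2 : A = P ∪ Q := by
        ext u
        rw [hA, hP, hQ, Finset.mem_filter, Finset.mem_union, Finset.mem_filter, Finset.mem_filter]
        constructor
        · rintro ⟨hu, hd⟩
          have := ((hJ u hu).2.2.1 hd).2
          rcases lt_or_gt_of_ne this with h | h
          · exact Or.inr ⟨hu, h⟩
          · exact Or.inl ⟨hu, h⟩
        · rintro (⟨hu, hd⟩ | ⟨hu, hd⟩)
          · exact ⟨hu, fun h => by rw [h] at hd; simp at hd⟩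
          · exact ⟨hu, fun h => by rw [h] at hd; simp at hd⟩
      have hdisj : Disjoint P Q := by
        rw [Finset.disjoint_left]
        intro u hu hu'
        rw [hP, Finset.mem_filter] at hu
        rw [hQ, Finset.mem_filter] at hu'
        linarith [hu.2, hu'.2]
      rw [h2, Finset.sum_union hdisj]
      have h3 : ∑ u ∈ P, J u = P.card := by
        rw [Finset.sum_congr rfl (g := fun _ => (1 : ℤ))]
        · simp
        · intro u hu
          rw [hP, Finset.mem_filter] at hu
          have hd : deriv Z u ≠ 0 := fun h => by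
            have := hu.2
            rw [h] at this; simp at this
          rw [((hJ u hu.1).2.2.1 hd).1]
          unfold sg
          rw [if_pos hu.2]
      have h4 : ∑ u ∈ Q, J u = -Q.card := by
        rw [Finset.sum_congr rfl (g := fun _ => (-1 : ℤ))]
        · simp
        · intro u hu
          rw [hQ, Finset.mem_filter] at hu
          have hd : deriv Z u ≠ 0 := fun h => by
            have := hu.2
            rw [h] at this; simp at this
          rw [((hJ u hu.1).2.2.1 hd).1]
          unfold sg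
          rw [if_neg (by linarith [hu.2])]
      rw [h3, h4]; ring
    rw [← h1, hA, add_comm]
    have := Finset.sum_filter_add_sum_filter_not F (fun u => deriv Z u = 0) J
    rw [← this]
  have hrest : |∑ u ∈ F.filter (fun u => deriv Z u = 0), J u| ≤ R.card := by
    refine (Finset.abs_sum_le_sum_abs _ _).trans ?_
    have h1 : ∀ u ∈ F.filter (fun u => deriv Z u = 0), |J u| ≤ if u ∈ R then 1 else 0 := by
      intro u hu
      rw [Finset.mem_filter] at hu
      split_ifs with h
      · exact (hJ u hu.1).2.1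
      · have h3 : analyticOrderNatAt riemannZeta (1 / 2 + I * u) < 3 := by
          by_contra hcon
          push Not at hcon
          exact h (by rw [hR, Finset.mem_filter]; exact ⟨hu.1, hcon⟩)
        rw [(hJ u hu.1).2.2.2 hu.2 h3]
        simp
    refine (Finset.sum_le_sum h1).trans ?_
    rw [← Finset.sum_filter, Finset.sum_const, nsmul_eq_mul, mul_one]
    have : (F.filter (fun u => deriv Z u = 0)).filter (fun u => u ∈ R) ⊆ R := by
      intro u hu
      rw [Finset.mem_filter] at hu
      exact hu.2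
    exact_mod_cast Finset.card_le_card this
  rw [hAn, hPn, hQn]
  rw [hsplit] at hsum1
  rw [abs_le] at hsum1 hrest
  constructor <;> omega

end Pool.Agent.R304.SG
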