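import Mathlib

/-! The sum of the jumps of the sign of a continuous function. -/

open Filter Topology Set

namespace Pool.Agent.R304.SG

/-- the sign of a nonzero number -/
noncomputable def sg (x : ℝ) : ℤ := if 0 < x then 1 else -1

/-- `J` is half of the jump of the sign of `g` at `u` -/
def IsJump (g : ℝ → ℝ) (u : ℝ) (J : ℤ) : Prop :=
  ∃ δ > 0, ∀ x y : ℝ, u - δ < x → x < u → u < y → y < u + δ → sg (g y) - sg (g x) = 2 * J

lemma sg_const {g : ℝ → ℝ} (hg : Continuous g) {a b : ℝ} (hab : a ≤ b)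
    (h : ∀ u ∈ Icc a b, g u ≠ 0) : sg (g a) = sg (g b) := by
  unfold sg
  have ha := h a (left_mem_Icc.2 hab)
  have hb := h b (right_mem_Icc.2 hab)
  rcases lt_or_gt_of_ne ha with h1 | h1 <;> rcases lt_or_gt_of_ne hb with h2 | h2
  · rw [if_neg (by linarith), if_neg (by linarith)]
  · exfalso
    obtain ⟨u, hu, hu0⟩ := intermediate_value_Icc hab hg.continuousOn ⟨h1.le, h2.le⟩
    exact h u hu hu0
  · exfalso
    obtain ⟨u, hu, hu0⟩ := intermediate_value_Icc' hab hg.continuousOn ⟨h2.le, h1.le⟩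
    exact h u hu hu0
  · rw [if_pos h1, if_pos h2]

theorem jump_sum {g : ℝ → ℝ} (hg : Continuous g) (J : ℝ → ℤ) : ∀ (n : ℕ) (Z : Finset ℝ),
    Z.card = n → ∀ a b : ℝ, a < b → g a ≠ 0 → g b ≠ 0 → (∀ u, a < u → u < b → g u = 0 → u ∈ Z) →
    (∀ u ∈ Z, a < u ∧ u < b) → (∀ u ∈ Z, IsJump g u (J u)) →
    2 * ∑ u ∈ Z, J u = sg (g b) - sg (g a) := by
  classical
  intro n
  induction n with
  | zero =>
    intro Z hZ a b hab ha hb hz _ _
    have hZ0 : Z = ∅ := Finset.card_eq_zero.mp hZ
    subst hZ0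
    rw [sg_const hg hab.le]
    · simp
    · intro u hu hu0
      rcases eq_or_lt_of_le hu.1 with h | h
      · exact ha (by rw [h]; exact hu0)
      · rcases eq_or_lt_of_le hu.2 with h' | h'
        · exact hb (by rw [← h']; exact hu0)
        · exact absurd (hz u h h' hu0) (Finset.notMem_empty _)
  | succ n ih =>
    intro Z hZ a b hab ha hb hz hin hJ
    have hne : Z.Nonempty := Finset.card_pos.mp (by omega)
    obtain ⟨u, hudef⟩ : ∃ u, u = Z.max' hne := ⟨_, rfl⟩
    have hu : u ∈ Z := by rw [hudef]; exact Z.max'_mem hne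
    have humax : ∀ v ∈ Z, v ≤ u := fun v hv => by rw [hudef]; exact Z.le_max' v hv
    obtain ⟨δ, hδ, hjump⟩ := hJ u hu
    obtain ⟨hau, hub⟩ := hin u hu
    have herase : ∀ v ∈ Z.erase u, v < u := fun v hv =>
      lt_of_le_of_ne (humax v (Finset.mem_of_mem_erase hv)) (Finset.ne_of_mem_erase hv)
    -- a point on the left
    obtain ⟨w, hw1, hw2⟩ : ∃ w, w < u ∧ ∀ v ∈ insert a (insert (u - δ) (Z.erase u)), v ≤ w := by
      have hne' : (insert a (insert (u - δ) (Z.erase u))).Nonempty := Finset.insert_nonempty _ _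
      refine ⟨(insert a (insert (u - δ) (Z.erase u))).max' hne', ?_, fun v hv =>
        Finset.le_max' _ v hv⟩
      rw [Finset.max'_lt_iff]
      intro v hv
      rw [Finset.mem_insert, Finset.mem_insert] at hv
      rcases hv with rfl | rfl | hv
      · exact hau
      · linarith
      · exact herase v hv
    obtain ⟨x, hx1, hx2⟩ := exists_between hw1
    have hax : a < x := lt_of_le_of_lt (hw2 a (Finset.mem_insert_self _ _)) hx1
    have hδx : u - δ < x := lt_of_le_of_lt
      (hw2 _ (Finset.mem_insert_of_mem (Finset.mem_insert_self _ _))) hx1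
    have hex : ∀ v ∈ Z.erase u, v < x := fun v hv => lt_of_le_of_lt
      (hw2 _ (Finset.mem_insert_of_mem (Finset.mem_insert_of_mem hv))) hx1
    have hgx : g x ≠ 0 := by
      intro h
      have hxZ := hz x hax (by linarith) h
      have : x ∈ Z.erase u := Finset.mem_erase.mpr ⟨hx2.ne, hxZ⟩
      exact lt_irrefl _ (hex x this)
    -- a point on the right
    obtain ⟨y, hy1, hy2⟩ := exists_between (lt_min (show u < u + δ by linarith) hub)
    have hyδ : y < u + δ := lt_of_lt_of_le hy2 (min_le_left _ _)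
    have hyb : y < b := lt_of_lt_of_le hy2 (min_le_right _ _)
    have hright : sg (g y) = sg (g b) := by
      refine sg_const hg hyb.le fun v hv hv0 => ?_
      rcases eq_or_lt_of_le hv.2 with h' | h'
      · exact hb (by rw [← h']; exact hv0)
      · have := humax v (hz v (by linarith [hv.1]) h' hv0)
        linarith [hv.1]
    have hleft := ih (Z.erase u) (by rw [Finset.card_erase_of_mem hu]; omega) a x hax ha hgx
      (by
        intro v h1 h2 h3
        exact Finset.mem_erase.mpr ⟨by linarith [h2, hx2] |> fun (h : v < u) => h.ne,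
          hz v h1 (by linarith) h3⟩)
      (fun v hv => ⟨(hin v (Finset.mem_of_mem_erase hv)).1, hex v hv⟩)
      (fun v hv => hJ v (Finset.mem_of_mem_erase hv))
    have hmid := hjump x y hδx hx2 hy1 hyδ
    rw [← Finset.add_sum_erase Z J hu]
    linarith

/-- a uniform version of an eventual statement -/
lemma ev_delta {u : ℝ} {P : ℝ → Prop} (h : ∀ᶠ x in 𝓝[≠] u, P x) :
    ∃ δ > 0, ∀ x, x ≠ u → |x - u| < δ → P x := by
  rw [eventually_nhdsWithin_iff, Metric.eventually_nhds_iff] at h
  obtain ⟨δ, hδ, h⟩ := h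
  exact ⟨δ, hδ, fun x h1 h2 => h (by rw [Real.dist_eq]; exact h2) h1⟩

/-- zeros of order one -/
lemma jump_one {g : ℝ → ℝ} {u c : ℝ} (hc : c ≠ 0)
    (h : Tendsto (fun x => g x / (x - u)) (𝓝[≠] u) (𝓝 c)) : IsJump g u (sg c) := by
  have h1 : Tendsto (fun x => c * (g x / (x - u))) (𝓝[≠] u) (𝓝 (c * c)) := h.const_mul c
  obtain ⟨δ, hδ, h2⟩ := ev_delta (h1.eventually (lt_mem_nhds (mul_self_pos.mpr hc)))
  refine ⟨δ, hδ, fun x y hx1 hx2 hy1 hy2 => ?_⟩
  have hx := h2 x hx2.ne (by rw [abs_lt]; constructor <;> linarith)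
  have hy := h2 y hy1.ne' (by rw [abs_lt]; constructor <;> linarith)
  have hx' : c * g x < 0 := by
    have e : c * g x = c * (g x / (x - u)) * (x - u) := by
      have : x - u ≠ 0 := by linarith
      field_simp
    rw [e]
    exact mul_neg_of_pos_of_neg hx (by linarith)
  have hy' : 0 < c * g y := by
    have e : c * g y = c * (g y / (y - u)) * (y - u) := by
      have : y - u ≠ 0 := by linarith
      field_simp
    rw [e]
    exact mul_pos hy (by linarith)
  unfold sg
  rcases lt_or_gt_of_ne hc with h0 | h0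
  · have a1 : 0 < g x := by nlinarith
    have a2 : g y < 0 := by nlinarith
    rw [if_neg (by linarith), if_pos a1, if_neg (by linarith)]
    norm_num
  · have a1 : g x < 0 := by nlinarith
    have a2 : 0 < g y := by nlinarith
    rw [if_pos a2, if_neg (by linarith), if_pos h0]
    norm_num

/-- zeros of order two -/
lemma jump_two {g : ℝ → ℝ} {u c : ℝ} (hc : c ≠ 0)
    (h : Tendsto (fun x => g x / (x - u) ^ 2) (𝓝[≠] u) (𝓝 c)) : IsJump g u 0 := by
  have h1 : Tendsto (fun x => c * (g x / (x - u) ^ 2)) (𝓝[≠] u) (𝓝 (c * c)) := h.const_mul c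
  obtain ⟨δ, hδ, h2⟩ := ev_delta (h1.eventually (lt_mem_nhds (mul_self_pos.mpr hc)))
  refine ⟨δ, hδ, fun x y hx1 hx2 hy1 hy2 => ?_⟩
  have hx := h2 x hx2.ne (by rw [abs_lt]; constructor <;> linarith)
  have hy := h2 y hy1.ne' (by rw [abs_lt]; constructor <;> linarith)
  have key : ∀ z, z ≠ u → 0 < c * (g z / (z - u) ^ 2) → 0 < c * g z := by
    intro z hz h
    have h0 : z - u ≠ 0 := sub_ne_zero.mpr hz
    have e : c * g z = c * (g z / (z - u) ^ 2) * (z - u) ^ 2 := by field_simp
    rw [e]
    exact mul_pos h (by positivity)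
  have hx' := key x hx2.ne hx
  have hy' := key y hy1.ne' hy
  unfold sg
  rcases lt_or_gt_of_ne hc with h0 | h0
  · have a1 : g x < 0 := by nlinarith
    have a2 : g y < 0 := by nlinarith
    rw [if_neg (by linarith), if_neg (by linarith)]
    norm_num
  · have a1 : 0 < g x := by nlinarith
    have a2 : 0 < g y := by nlinarith
    rw [if_pos a2, if_pos a1]
    norm_num

/-- zeros of any order have a jump of modulus at most one -/
lemma jump_any {g : ℝ → ℝ} {u c : ℝ} (m : ℕ) (hc : c ≠ 0)
    (h : Tendsto (fun x => g x / (x - u) ^ m) (𝓝[≠] u) (𝓝 c)) : ∃ J : ℤ, |J| ≤ 1 ∧ IsJump g u J := by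
  have h1 : Tendsto (fun x => c * (g x / (x - u) ^ m)) (𝓝[≠] u) (𝓝 (c * c)) := h.const_mul c
  obtain ⟨δ, hδ, h2⟩ := ev_delta (h1.eventually (lt_mem_nhds (mul_self_pos.mpr hc)))
  have hy : ∀ y, u < y → y < u + δ → 0 < c * g y := by
    intro y hy1 hy2
    have hy := h2 y hy1.ne' (by rw [abs_lt]; constructor <;> linarith)
    have h0 : 0 < y - u := by linarith
    have e : c * g y = c * (g y / (y - u) ^ m) * (y - u) ^ m := by field_simp
    rw [e]
    positivity
  have hx : ∀ x, u - δ < x → x < u → 0 < (-1) ^ m * (c * g x) := by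
    intro x hx1 hx2
    have hx := h2 x hx2.ne (by rw [abs_lt]; constructor <;> linarith)
    have h0 : 0 < u - x := by linarith
    have h00 : x - u ≠ 0 := by linarith
    have e : (-1) ^ m * (c * g x) = c * (g x / (x - u) ^ m) * (u - x) ^ m := by
      have : (u - x) ^ m = (-1) ^ m * (x - u) ^ m := by
        rw [← mul_pow]; congr 1; ring
      rw [this]
      field_simp
    rw [e]
    positivity
  rcases Nat.even_or_odd m with hm | hm
  · refine ⟨0, by norm_num, δ, hδ, fun x y hx1 hx2 hy1 hy2 => ?_⟩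
    have hx' := hx x hx1 hx2
    have hy' := hy y hy1 hy2
    rw [hm.neg_one_pow, one_mul] at hx'
    unfold sg
    rcases lt_or_gt_of_ne hc with h0 | h0
    · have a1 : g x < 0 := by nlinarith
      have a2 : g y < 0 := by nlinarith
      rw [if_neg (by linarith), if_neg (by linarith)]
      norm_num
    · have a1 : 0 < g x := by nlinarith
      have a2 : 0 < g y := by nlinarith
      rw [if_pos a2, if_pos a1]
      norm_num
  · refine ⟨sg c, ?_, δ, hδ, fun x y hx1 hx2 hy1 hy2 => ?_⟩
    · unfold sg; split_ifs <;> norm_num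
    have hx' := hx x hx1 hx2
    have hy' := hy y hy1 hy2
    rw [hm.neg_one_pow] at hx'
    have hx'' : c * g x < 0 := by linarith
    unfold sg
    rcases lt_or_gt_of_ne hc with h0 | h0
    · have a1 : 0 < g x := by nlinarith
      have a2 : g y < 0 := by nlinarith
      rw [if_neg (by linarith), if_pos a1, if_neg (by linarith)]
      norm_num
    · have a1 : g x < 0 := by nlinarith
      have a2 : 0 < g y := by nlinarith
      rw [if_pos a2, if_neg (by linarith), if_pos h0]
      norm_num

end Pool.Agent.R304.SG
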